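import Mathlib
import Pool.Agent.Q288.VL.Many

set_option autoImplicit false

/-!
# The primes of the form `n^n + 1` and the laws of the primes `⌊x n^n⌋ + c`

For real amplitudes `x` the heuristic argument for the primes of the form `n^n + 1` is a theorem, for
every finite set of further prime indices at once and for the number of further primes.
-/

namespace Pool.Agent.Results.MP_a70bdc_nt.AmplitudeLaws

open Filter Finset MeasureTheory

/-- The heuristic probability of a prime near `n^n` for `n = 2^(2^k)`, up to a constant: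
`1 / log₂ (n^n) = 1 / (2^k n)`. -/
noncomputable def w (k : ℕ) : ℝ := 1 / Real.logb 2 (((2 : ℝ) ^ 2 ^ k) ^ 2 ^ 2 ^ k)

/-- The set of the indices `k ≥ N` for which, with `n = 2^(2^k)`, the number `⌊x n^n⌋ + c k` is
prime. For `x = 1` and `c = 1` it is the set of the `k ≥ N` with `n^n + 1` prime. -/
def further (c : ℕ → ℕ) (N : ℕ) (x : ℝ) : Set ℕ :=
  {k | N ≤ k ∧ (⌊x * ((2 : ℝ) ^ 2 ^ k) ^ 2 ^ 2 ^ k⌋₊ + c k).Prime}

/-- There are constants `0 < a ≤ A` such that for `0 < ε < 1`, `0 < s < t` and `B`, for all large `N`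
and all sequences `c` of natural numbers at most `B`: (1) for EVERY finite set `I` of indices `≥ N`
the measure of the `x` in `(s, t)` whose set of further prime indices is exactly `I` is at least
`(1 - ε) (t - s) ∏ a w k`, and the measure of those for which it contains `I` is at most
`(1 + ε) (t - s) ∏ A w k`, with the products over `k ∈ I`; (2) for every `r` the measure of the `x` in
`(s, t)` with exactly `r` further primes is at least `(1 - ε) (t - s) ∏ a w k`, and the measure of those
with at least `r` further primes is at most `(1 + ε) (t - s) ∏ A w k`, with the products over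
`N ≤ k < N + r`. -/
theorem result :
    (∀ N : ℕ, further (fun _ => 1) N 1 = {k : ℕ | N ≤ k ∧ ((2 ^ 2 ^ k) ^ 2 ^ 2 ^ k + 1).Prime}) ∧
    ∃ a A : ℝ, 0 < a ∧ a ≤ A ∧
      ∀ (ε : ℝ) (B : ℕ) (s t : ℝ), 0 < ε → ε < 1 → 0 < s → s < t →
        ∀ᶠ N : ℕ in atTop, ∀ c : ℕ → ℕ, (∀ k, c k ≤ B) →
          (∀ I : Finset ℕ, (∀ k ∈ I, N ≤ k) →
            (1 - ε) * (t - s) * ∏ k ∈ I, a * w k ≤
              volume.real {x | x ∈ Set.Ioo s t ∧ further c N x = I} ∧
            volume.real {x | x ∈ Set.Ioo s t ∧ (I : Set ℕ) ⊆ further c N x} ≤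
              (1 + ε) * (t - s) * ∏ k ∈ I, A * w k) ∧
          ∀ r : ℕ,
            (1 - ε) * (t - s) * ∏ k ∈ Ico N (N + r), a * w k ≤
              volume.real {x | x ∈ Set.Ioo s t ∧ (further c N x).encard = r} ∧
            volume.real {x | x ∈ Set.Ioo s t ∧ r ≤ (further c N x).encard} ≤
              (1 + ε) * (t - s) * ∏ k ∈ Ico N (N + r), A * w k := by
  have hE : ∀ k : ℕ, ((2 : ℝ) ^ 2 ^ k) ^ 2 ^ 2 ^ k = (Pool.Agent.Q288.VL.E k : ℝ) := by
    intro k
    have := Pool.Agent.Q288.VL.pow_nn k (2 ^ 2 ^ k) rfl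
    push_cast at this
    exact this
  have hw : ∀ k, w k = 1 / (Pool.Agent.Q288.VL.M k : ℝ) := by
    intro k
    unfold w
    rw [hE]
    congr 1
    unfold Pool.Agent.Q288.VL.E
    push_cast
    rw [Real.logb_pow, Real.logb_self_eq_one (by norm_num), mul_one]
  refine ⟨fun N => ?_, ?_⟩
  · unfold further
    ext k
    simp only [Set.mem_ofPred_eq, one_mul]
    have : ⌊((2 : ℝ) ^ 2 ^ k) ^ 2 ^ 2 ^ k⌋₊ = (2 ^ 2 ^ k) ^ 2 ^ 2 ^ k := by
      have h : ((2 : ℝ) ^ 2 ^ k) ^ 2 ^ 2 ^ k = (((2 ^ 2 ^ k) ^ 2 ^ 2 ^ k : ℕ) : ℝ) := by push_cast; rfl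
      rw [h, Nat.floor_natCast]
    rw [this]
  · obtain ⟨a, A, ha, haA, h⟩ := Pool.Agent.Q288.VL.laws
    refine ⟨a, A, ha, haA, fun ε B s t hε hε1 hs hst => ?_⟩
    obtain ⟨K, hK⟩ := h ε B s t hε hε1 hs hst
    filter_upwards [eventually_ge_atTop K] with N hN c hc
    obtain ⟨h1, h2⟩ := hK N hN c hc
    refine ⟨fun I hI => ?_, fun r => ?_⟩
    · obtain ⟨h3, h4⟩ := h1 I hI
      have e1 : ∀ b : ℝ, ∏ k ∈ I, b * w k = ∏ k ∈ I, b / (Pool.Agent.Q288.VL.M k : ℝ) := fun b =>
        prod_congr rfl fun k _ => by rw [hw]; ring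
      rw [e1, e1]
      constructor
      · convert h3 using 4 with x
        simp only [Set.mem_Ioo, and_assoc]
        refine and_congr_right fun _ => and_congr_right fun _ => ?_
        unfold further
        simp only [hE]
        constructor
        · intro h k hk
          have := Set.ext_iff.1 h k
          simp only [Set.mem_ofPred_eq, hk, true_and, mem_coe] at this
          exact this
        · intro h
          ext k
          simp only [Set.mem_ofPred_eq, mem_coe]
          constructor
          · rintro ⟨g1, g2⟩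
            exact (h k g1).1 g2
          · intro g
            exact ⟨hI k g, (h k (hI k g)).2 g⟩
      · convert h4 using 4 with x
        simp only [Set.mem_Ioo, and_assoc]
        refine and_congr_right fun _ => and_congr_right fun _ => ?_
        unfold further
        simp only [hE]
        constructor
        · intro h k hk
          exact (h (mem_coe.2 hk)).2
        · intro h k hk
          exact ⟨hI k (mem_coe.1 hk), h k (mem_coe.1 hk)⟩
    · obtain ⟨h3, h4⟩ := h2 r
      have e1 : ∀ b : ℝ, ∏ k ∈ Ico N (N + r), b * w k =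
          ∏ i ∈ range r, b / (Pool.Agent.Q288.VL.M (N + i) : ℝ) := fun b => by
        rw [prod_Ico_eq_prod_range]
        rw [Nat.add_sub_cancel_left]
        exact prod_congr rfl fun k _ => by rw [hw]; ring
      rw [e1, e1]
      constructor
      · convert h3 using 4 with x
        simp only [Set.mem_Ioo, and_assoc]
        unfold further
        simp only [hE]
      · convert h4 using 4 with x
        simp only [Set.mem_Ioo, and_assoc]
        unfold further
        simp only [hE]

end Pool.Agent.Results.MP_a70bdc_nt.AmplitudeLaws
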