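import Mathlib
import Pool.Agent.Q43.LC.AmpB

set_option autoImplicit false

/-!
# `⌊β n^n⌋ + 1` for `n = 2^(2^k)`: amplitudes for which all large terms are prime
-/

namespace Pool.Agent.Results.MP_a70bdc_nt.AmplitudesWithAllPrimes

open MeasureTheory

/-- Let `n` run over the numbers `2^(2^k)` (the only `n ≥ 2` for which `n^n + 1` can be prime) and
let `c` be a natural number (`c = 1` in the problem).  In every interval of amplitudes the set of the
`β` for which `⌊β n^n⌋ + c` is prime for ALL large `k` has Hausdorff dimension one, while for almost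
every amplitude only finitely many of these numbers are prime. -/
theorem result (c : ℕ) :
    (∀ s t : ℝ, 0 < s → s < t →
      dimH {β : ℝ | s < β ∧ β < t ∧ ∃ M : ℕ, ∀ k n : ℕ, M ≤ k → n = 2 ^ 2 ^ k →
        (⌊β * (n : ℝ) ^ n⌋₊ + c).Prime} = 1) ∧
    ∀ᵐ β : ℝ, 0 < β → ∃ M : ℕ, ∀ k n : ℕ, M ≤ k → n = 2 ^ 2 ^ k →
      ¬ (⌊β * (n : ℝ) ^ n⌋₊ + c).Prime := by
  have key : ∀ k n : ℕ, n = 2 ^ 2 ^ k → (n : ℝ) ^ n = 2 ^ (2 ^ (k + 2 ^ k)) := by
    rintro k n rfl
    push_cast
    rw [← pow_mul]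
    congr 1
    rw [pow_add]
  have hk2 : ∀ k : ℕ, k < 2 ^ k := fun k => Nat.lt_two_pow_self
  constructor
  · intro s t hs hst
    obtain ⟨C, _, h⟩ := Pool.Agent.Q43.LC.ampB
    set S : Set ℕ := {m | ∃ k, C ≤ k ∧ m = 2 ^ (k + 2 ^ k)} with hS
    have hlac : Pool.Agent.Q43.LC.Lac C S := by
      rintro m ⟨k, hk, rfl⟩ n ⟨l, hl, rfl⟩ hmn
      have h1 : k + 2 ^ k < l + 2 ^ l := (Nat.pow_lt_pow_iff_right (by norm_num)).1 hmn
      have h2 : k < l := by
        by_contra hc
        push Not at hc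
        have : 2 ^ l ≤ 2 ^ k := Nat.pow_le_pow_right (by norm_num) hc
        omega
      have h3 : 2 ^ (k + 1) ≤ 2 ^ l := Nat.pow_le_pow_right (by norm_num) h2
      have h4 : k + (k + 2 ^ k) ≤ l + 2 ^ l := by
        have := hk2 k
        rw [pow_succ] at h3
        omega
      calc C * 2 ^ (k + 2 ^ k) ≤ 2 ^ k * 2 ^ (k + 2 ^ k) :=
            Nat.mul_le_mul_right _ (hk.trans (hk2 k).le)
        _ = 2 ^ (k + (k + 2 ^ k)) := (pow_add _ _ _).symm
        _ ≤ _ := Nat.pow_le_pow_right (by norm_num) h4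
    refine le_antisymm (Pool.Agent.Q43.LC.dimH_le_one _) ?_
    rw [← h 2 c (by norm_num) S hlac s t hs hst]
    refine dimH_mono ?_
    rintro β ⟨h1, h2, M, hM⟩
    refine ⟨h1, h2, M + C, fun k n hk hn => ?_⟩
    rw [key k n hn]
    refine hM _ ⟨k, by omega, rfl⟩ ?_
    have h3 : k < 2 ^ (k + 2 ^ k) :=
      (hk2 k).trans_le (Nat.pow_le_pow_right (by norm_num) (Nat.le_add_right _ _))
    omega
  · have hsum : Summable fun m : Set.range (fun k : ℕ => 2 ^ (k + 2 ^ k)) => 1 / ((m : ℕ) : ℝ) := by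
      have hinj : Function.Injective (fun k : ℕ => 2 ^ (k + 2 ^ k)) := by
        have : StrictMono (fun k : ℕ => 2 ^ (k + 2 ^ k)) := by
          intro k l hkl
          have h3 : 2 ^ k < 2 ^ l := Nat.pow_lt_pow_right (by norm_num) hkl
          exact Nat.pow_lt_pow_right (by norm_num) (by omega)
        exact this.injective
      rw [← (Equiv.ofInjective _ hinj).summable_iff]
      refine (summable_geometric_two).of_nonneg_of_le (fun k => div_nonneg zero_le_one (Nat.cast_nonneg _))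
        fun k => ?_
      show 1 / (((2 ^ (k + 2 ^ k) : ℕ) : ℝ)) ≤ (1 / 2) ^ k
      push_cast
      rw [one_div_pow]
      refine one_div_le_one_div_of_le (by positivity) ?_
      exact pow_le_pow_right₀ (by norm_num) (Nat.le_add_right _ _)
    filter_upwards [Pool.Agent.Q43.LC.ampAe (b := 2) (by norm_num) c hsum] with β hβ h0
    obtain ⟨M, hM⟩ := hβ h0
    refine ⟨M, fun k n hk hn => ?_⟩
    rw [key k n hn]
    refine hM _ ⟨k, rfl⟩ ?_
    have h3 : k < 2 ^ (k + 2 ^ k) :=
      (hk2 k).trans_le (Nat.pow_le_pow_right (by norm_num) (Nat.le_add_right _ _))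
    omega

end Pool.Agent.Results.MP_a70bdc_nt.AmplitudesWithAllPrimes
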