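import Mathlib
import Pool.Agent.Q288.VC.Amp
import Pool.Agent.Q288.VC.Gen

set_option autoImplicit false

/-!
# `⌊β n^n⌋ + c` for `n = 2^(2^k)`: every set of indices is the set of the prime indices

If `⌊β n^n⌋ + c + 1` is a large prime, then `⌊β n^n⌋ + c` is even and composite. So a construction
with a variable constant gives amplitudes for which the number is prime exactly at the prescribed
indices.
-/

namespace Pool.Agent.Results.MP_a70bdc_nt.PrescribedIndices

open Filter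

/-- Let `n` run over the numbers `2^(2^k)` (the only `n ≥ 2` for which `n^n + 1` can be prime). Let
`T` be any set of natural numbers. (1) Let `c` be a natural number (`c = 1` in the problem). In every
interval of positive amplitudes the set of the `β` for which, for all large `k`, `⌊β n^n⌋ + c` is
prime if and only if `k ∈ T`, has Hausdorff dimension one. (2) More generally, for every bounded
sequence `c` the set of the `β` for which `⌊β n^n⌋ + c k` is prime for all large `k` has dimension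
one. (3) Let `g` be any function. For all `β > 0` outside a meagre set and all natural numbers `c`
there are infinitely many `k` such that, for all `i` from `k` to `g k` (with `n = 2^(2^i)`),
`⌊β n^n⌋ + c` is prime if and only if `i ∈ T`. -/
theorem result :
    (∀ T : Set ℕ, ∀ c : ℕ, ∀ s t : ℝ, 0 < s → s < t →
      dimH {β : ℝ | s < β ∧ β < t ∧ ∃ M : ℕ, ∀ k n : ℕ, M ≤ k → n = 2 ^ 2 ^ k →
        ((⌊β * (n : ℝ) ^ n⌋₊ + c).Prime ↔ k ∈ T)} = 1) ∧
    (∀ c : ℕ → ℕ, (∃ B, ∀ k, c k ≤ B) → ∀ s t : ℝ, 0 < s → s < t →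
      dimH {β : ℝ | s < β ∧ β < t ∧ ∃ M : ℕ, ∀ k n : ℕ, M ≤ k → n = 2 ^ 2 ^ k →
        (⌊β * (n : ℝ) ^ n⌋₊ + c k).Prime} = 1) ∧
    ∀ T : Set ℕ, ∀ g : ℕ → ℕ, ∀ᶠ β : ℝ in residual ℝ, 0 < β → ∀ c K : ℕ,
      ∃ k, K ≤ k ∧ ∀ i n : ℕ, k ≤ i → i ≤ g k → n = 2 ^ 2 ^ i →
        ((⌊β * (n : ℝ) ^ n⌋₊ + c).Prime ↔ i ∈ T) := by
  have key : ∀ k n : ℕ, n = 2 ^ 2 ^ k → (n : ℝ) ^ n = 2 ^ (2 ^ (k + 2 ^ k)) := by
    rintro k n rfl
    push_cast
    rw [← pow_mul]
    congr 1
    rw [pow_add]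
  have hk2 : ∀ k : ℕ, k < 2 ^ k := fun k => Nat.lt_two_pow_self
  have hmono : StrictMono fun k : ℕ => 2 ^ (k + 2 ^ k) := by
    intro k l hkl
    have h3 : 2 ^ k < 2 ^ l := Nat.pow_lt_pow_right (by norm_num) hkl
    exact Nat.pow_lt_pow_right (by norm_num) (by omega)
  have two : ∀ c : ℕ → ℕ, (∃ B, ∀ k, c k ≤ B) → ∀ s t : ℝ, 0 < s → s < t →
      dimH {β : ℝ | s < β ∧ β < t ∧ ∃ M : ℕ, ∀ k n : ℕ, M ≤ k → n = 2 ^ 2 ^ k →
        (⌊β * (n : ℝ) ^ n⌋₊ + c k).Prime} = 1 := by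
    rintro c ⟨B, hB⟩ s t hs hst
    obtain ⟨C, _, h⟩ := Pool.Agent.Q288.VC.ampVB
    set S : Set ℕ := {m | ∃ k, C ≤ k ∧ m = 2 ^ (k + 2 ^ k)} with hS
    have hlac : Pool.Agent.Q43.LC.Lac C S := by
      rintro m ⟨k, hk, rfl⟩ n ⟨l, hl, rfl⟩ hmn
      have h2 : k < l := hmono.lt_iff_lt.1 hmn
      have h3 : 2 ^ (k + 1) ≤ 2 ^ l := Nat.pow_le_pow_right (by norm_num) h2
      have h4 : k + (k + 2 ^ k) ≤ l + 2 ^ l := by
        have := hk2 k
        rw [pow_succ] at h3
        omega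
      calc C * 2 ^ (k + 2 ^ k) ≤ 2 ^ k * 2 ^ (k + 2 ^ k) :=
            Nat.mul_le_mul_right _ (hk.trans (hk2 k).le)
        _ = 2 ^ (k + (k + 2 ^ k)) := (pow_add _ _ _).symm
        _ ≤ _ := Nat.pow_le_pow_right (by norm_num) h4
    -- the constants as a function of the exponent
    classical
    let d : ℕ → ℕ := fun m => if h : ∃ k, m = 2 ^ (k + 2 ^ k) then c h.choose else 0
    have hd : ∀ m, d m ≤ B := by
      intro m
      simp only [d]
      split_ifs with h
      · exact hB _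
      · exact Nat.zero_le _
    have hdk : ∀ k, d (2 ^ (k + 2 ^ k)) = c k := by
      intro k
      have h : ∃ l, 2 ^ (k + 2 ^ k) = 2 ^ (l + 2 ^ l) := ⟨k, rfl⟩
      simp only [d]
      rw [dif_pos h]
      congr 1
      exact (hmono.injective h.choose_spec).symm
    refine le_antisymm (Pool.Agent.Q43.LC.dimH_le_one _) ?_
    rw [← h 2 d B hd (by norm_num) S hlac s t hs hst]
    refine dimH_mono ?_
    rintro β ⟨h1, h2, M, hM⟩
    refine ⟨h1, h2, M + C, fun k n hk hn => ?_⟩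
    rw [key k n hn, ← hdk k]
    refine hM _ ⟨k, by omega, rfl⟩ ?_
    have h3 : k < 2 ^ (k + 2 ^ k) :=
      (hk2 k).trans_le (Nat.pow_le_pow_right (by norm_num) (Nat.le_add_right _ _))
    omega
  refine ⟨fun T c s t hs hst => ?_, two, fun T g => ?_⟩
  · classical
    refine le_antisymm (Pool.Agent.Q43.LC.dimH_le_one _) ?_
    rw [← two (fun k => if k ∈ T then c else c + 1) ⟨c + 1, fun k => by split_ifs <;> omega⟩
      s t hs hst]
    refine dimH_mono ?_
    rintro β ⟨h1, h2, M, hM⟩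
    obtain ⟨A, hA⟩ := exists_nat_gt (3 / s)
    refine ⟨h1, h2, M + A, fun k n hk hn => ?_⟩
    have h3 := hM k n (by omega) hn
    by_cases hT : k ∈ T
    · rw [if_pos hT] at h3
      exact ⟨fun _ => hT, fun _ => h3⟩
    · rw [if_neg hT] at h3
      refine ⟨fun hp => ?_, fun h => absurd h hT⟩
      exfalso
      -- two consecutive primes: both small
      have h4 : (3 : ℝ) ≤ β * (n : ℝ) ^ n := by
        have h5 : (A : ℝ) ≤ (n : ℝ) ^ n := by
          rw [key k n hn]
          have h6 : k < 2 ^ (2 ^ (k + 2 ^ k)) :=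
            (Nat.le_add_right k (2 ^ k)).trans_lt ((hk2 _).trans (hk2 _))
          have h7 : A ≤ 2 ^ (2 ^ (k + 2 ^ k)) := by omega
          exact_mod_cast h7
        have h8 : 3 < A * s := by rwa [div_lt_iff₀ hs] at hA
        calc (3 : ℝ) ≤ A * s := h8.le
          _ ≤ (n : ℝ) ^ n * β := by gcongr
          _ = _ := mul_comm _ _
      have h9 : 3 ≤ ⌊β * (n : ℝ) ^ n⌋₊ := Nat.le_floor (by exact_mod_cast h4)
      have o1 := hp.odd_of_ne_two (by omega)
      have o2 := h3.odd_of_ne_two (by omega)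
      rw [← add_assoc] at o2
      exact (Nat.not_even_iff_odd.mpr o2) o1.add_one
  · filter_upwards [Pool.Agent.Q288.VC.generic T g] with β hβ hβ0 c K
    obtain ⟨k, h1, h2⟩ := hβ hβ0 c K
    refine ⟨k, h1, fun i n hi1 hi2 hn => ?_⟩
    rw [key i n hn]
    exact h2 i hi1 hi2

end Pool.Agent.Results.MP_a70bdc_nt.PrescribedIndices
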