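import Mathlib
import Pool.Agent.Q288.VC.Base

set_option autoImplicit false

/-!
# The primes of the form `n^n + 1` in the family `⌊x^(n log₂ n)⌋ + 1`

For `n = 2^(2^k)` one has `n^n = 2^(2^k n)`. Replace the base `2` by a real number `x > 1`: every
set of indices is the set of the `k` for which `⌊x^(2^k n)⌋ + c` is prime, up to finitely many
indices, for a set of `x` of dimension one in every interval.
-/

namespace Pool.Agent.Results.MP_a70bdc_nt.PrescribedIndicesBases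

open Filter Pool.Agent.Q288.VC

/-- Let `n` run over the numbers `2^(2^k)` (the only `n ≥ 2` for which `n^n + 1` can be prime); then
`n^n = 2^(2^k n)`. (1) Let `T` be a set of natural numbers and `c` a natural number (`c = 1` in the
problem). For all `1 ≤ a < b` the set of the `x` in `(a, b)` for which, for all large `k`,
`⌊x^(2^k n)⌋ + c` is prime if and only if `k ∈ T`, has Hausdorff dimension one. (2) More generally,
for every bounded sequence `c` the set of the `x` in `(a, b)` for which `⌊x^(2^k n)⌋ + c k` is prime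
for all large `k` has dimension one. (3) Let `g` be any function. For all `x > 1` outside a meagre
set and all `c` there are infinitely many `k` such that, for all `i` from `k` to `g k` (with
`n = 2^(2^i)`), `⌊x^(2^i n)⌋ + c` is prime if and only if `i ∈ T`. (4) For almost every `x > 1` and
every `c` only finitely many of the numbers `⌊x^(2^k n)⌋ + c` are prime. -/
theorem result :
    (∀ k n : ℕ, n = 2 ^ 2 ^ k → 2 ^ (2 ^ k * n) = n ^ n) ∧
    (∀ T : Set ℕ, ∀ c : ℕ, ∀ a b : ℝ, 1 ≤ a → a < b →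
      dimH {x : ℝ | a < x ∧ x < b ∧ ∃ M : ℕ, ∀ k n : ℕ, M ≤ k → n = 2 ^ 2 ^ k →
        ((⌊x ^ (2 ^ k * n)⌋₊ + c).Prime ↔ k ∈ T)} = 1) ∧
    (∀ c : ℕ → ℕ, (∃ B, ∀ k, c k ≤ B) → ∀ a b : ℝ, 1 ≤ a → a < b →
      dimH {x : ℝ | a < x ∧ x < b ∧ ∃ M : ℕ, ∀ k n : ℕ, M ≤ k → n = 2 ^ 2 ^ k →
        (⌊x ^ (2 ^ k * n)⌋₊ + c k).Prime} = 1) ∧
    (∀ T : Set ℕ, ∀ g : ℕ → ℕ, ∀ᶠ x : ℝ in residual ℝ, 1 < x → ∀ c K : ℕ,
      ∃ k, K ≤ k ∧ ∀ i n : ℕ, k ≤ i → i ≤ g k → n = 2 ^ 2 ^ i →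
        ((⌊x ^ (2 ^ i * n)⌋₊ + c).Prime ↔ i ∈ T)) ∧
    ∀ᵐ x : ℝ, 1 < x → ∀ c : ℕ, ∃ M : ℕ, ∀ k n : ℕ, M ≤ k → n = 2 ^ 2 ^ k →
      ¬ (⌊x ^ (2 ^ k * n)⌋₊ + c).Prime := by
  classical
  have hk2 : ∀ k : ℕ, k < 2 ^ k := fun k => Nat.lt_two_pow_self
  set E : ℕ → ℕ := fun k => 2 ^ (k + 2 ^ k) with hE
  have key : ∀ k n : ℕ, n = 2 ^ 2 ^ k → 2 ^ k * n = E k := by
    rintro k n rfl
    exact (pow_add 2 k (2 ^ k)).symm
  have hmono : StrictMono E := by
    intro k l hkl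
    have h3 : 2 ^ k < 2 ^ l := Nat.pow_lt_pow_right (by norm_num) hkl
    exact Nat.pow_lt_pow_right (by norm_num) (by omega)
  have hge : ∀ k, k ≤ E k := fun k => hmono.le_apply
  obtain ⟨C, hC2, hC⟩ := base_dim
  set S : Set ℕ := {m | ∃ k, C ≤ k ∧ m = E k} with hS
  have hlac : Pool.Agent.Q43.LC.Lac C S := by
    rintro m ⟨k, hk, rfl⟩ n ⟨l, hl, rfl⟩ hmn
    have h2 : k < l := hmono.lt_iff_lt.1 hmn
    have h3 : 2 ^ (k + 1) ≤ 2 ^ l := Nat.pow_le_pow_right (by norm_num) h2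
    have h4 : k + (k + 2 ^ k) ≤ l + 2 ^ l := by
      have := hk2 k
      rw [pow_succ] at h3
      omega
    calc C * 2 ^ (k + 2 ^ k) ≤ 2 ^ k * 2 ^ (k + 2 ^ k) :=
          Nat.mul_le_mul_right _ (hk.trans (hk2 k).le)
      _ = 2 ^ (k + (k + 2 ^ k)) := (pow_add _ _ _).symm
      _ ≤ _ := Nat.pow_le_pow_right (by norm_num) h4
  have two : ∀ c : ℕ → ℕ, (∃ B, ∀ k, c k ≤ B) → ∀ a b : ℝ, 1 ≤ a → a < b →
      dimH {x : ℝ | a < x ∧ x < b ∧ ∃ M : ℕ, ∀ k n : ℕ, M ≤ k → n = 2 ^ 2 ^ k →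
        (⌊x ^ (2 ^ k * n)⌋₊ + c k).Prime} = 1 := by
    rintro c ⟨B, hB⟩ a b ha hab
    -- the constants as a function of the exponent
    let d : ℕ → ℕ := fun m => if h : ∃ k, m = E k then c h.choose else 0
    have hd : ∀ m, d m ≤ B := by
      intro m
      simp only [d]
      split_ifs with h
      · exact hB _
      · exact Nat.zero_le _
    have hdk : ∀ k, d (E k) = c k := by
      intro k
      have h : ∃ l, E k = E l := ⟨k, rfl⟩
      simp only [d]
      rw [dif_pos h]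
      congr 1
      exact (hmono.injective h.choose_spec).symm
    refine le_antisymm (Pool.Agent.Q43.LC.dimH_le_one _) ?_
    rw [← hC d B hd S hlac a b ha hab]
    refine dimH_mono ?_
    rintro x ⟨h1, h2, M, hM⟩
    refine ⟨h1, h2, M + C, fun k n hk hn => ?_⟩
    rw [key k n hn, ← hdk k]
    exact hM _ ⟨k, by omega, rfl⟩ (by have := hge k; omega)
  have one : ∀ T : Set ℕ, ∀ c : ℕ, ∀ a b : ℝ, 1 ≤ a → a < b →
      dimH {x : ℝ | a < x ∧ x < b ∧ ∃ M : ℕ, ∀ k n : ℕ, M ≤ k → n = 2 ^ 2 ^ k →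
        ((⌊x ^ (2 ^ k * n)⌋₊ + c).Prime ↔ k ∈ T)} = 1 := by
    intro T c a b ha hab
    refine le_antisymm (Pool.Agent.Q43.LC.dimH_le_one _) ?_
    rw [← two (fun k => if k ∈ T then c else c + 7) ⟨c + 7, fun k => by split_ifs <;> omega⟩
      a b ha hab]
    refine dimH_mono ?_
    rintro x ⟨h1, h2, M, hM⟩
    refine ⟨h1, h2, M, fun k n hk hn => ?_⟩
    have h3 := hM k n hk hn
    by_cases hT : k ∈ T
    · rw [if_pos hT] at h3
      exact ⟨fun _ => hT, fun _ => h3⟩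
    · rw [if_neg hT, ← add_assoc] at h3
      exact ⟨fun hp => absurd hp (not_prime_of h3), fun h => absurd h hT⟩
  refine ⟨?_, one, two, fun T g => ?_, ?_⟩
  · rintro k n rfl
    rw [pow_mul]
  · have h : ∀ c : ℕ, ∀ᶠ x : ℝ in residual ℝ, 1 < x → ∀ K : ℕ,
        ∃ k, K ≤ k ∧ ∀ i n : ℕ, k ≤ i → i ≤ g k → n = 2 ^ 2 ^ i →
          ((⌊x ^ (2 ^ i * n)⌋₊ + c).Prime ↔ i ∈ T) := by
      intro c
      have hs := soft (J := Set.Ioi 1) (v := fun m x => x ^ m) (K₀ := 1) (S := S)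
        (W := fun m => {n | (n + c).Prime ↔ m ∈ E '' T}) isOpen_Ioi
        (fun m => (continuous_pow m).continuousOn)
        (fun m x hx => pow_nonneg (zero_le_one.trans (le_of_lt hx)) m) (fun m hm => ?_)
        (fun a b hab hsub hcount => ?_) (fun k => E (g k))
      · filter_upwards [hs] with x hx hx1 K
        obtain ⟨k, hk, h⟩ := hx hx1 (K + C)
        refine ⟨k, by omega, fun i n h1 h2 hn => ?_⟩
        have h3 := h (E i) ⟨i, by omega, rfl⟩ (h1.trans (hge i)) (hmono.monotone h2)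
        rw [key i n hn]
        have h4 : (⌊x ^ E i⌋₊ + c).Prime ↔ E i ∈ E '' T := h3
        rwa [hmono.injective.mem_set_image] at h4
      · have : {x ∈ Set.Ioi (1 : ℝ) | ∃ n : ℕ, x ^ m = n} ⊆
            ⋃ n : ℕ, {x ∈ Set.Ioi (1 : ℝ) | x ^ m = n} := by
          rintro x ⟨h1, n, h2⟩
          exact Set.mem_iUnion.mpr ⟨n, h1, h2⟩
        refine (Set.countable_iUnion fun n => Set.Subsingleton.countable ?_).mono this
        rintro x ⟨hx1, hx2⟩ y ⟨hy1, hy2⟩
        have hx0 : (0 : ℝ) ≤ x := zero_le_one.trans (le_of_lt hx1)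
        have hy0 : (0 : ℝ) ≤ y := zero_le_one.trans (le_of_lt hy1)
        exact (pow_left_inj₀ hx0 hy0 (by omega)).mp (hx2.trans hy2.symm)
      · have ha : 1 ≤ a := by
          by_contra hcon
          push Not at hcon
          obtain ⟨z, hz1, hz2⟩ := exists_between (lt_min hab hcon)
          have := hsub ⟨hz1, hz2.trans_le (min_le_left _ _)⟩
          exact absurd (hz2.trans_le (min_le_right _ _)) (not_lt.mpr (le_of_lt this))
        have h1 := one T c a b ha hab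
        refine one_ne_zero (h1.symm.trans (Set.Countable.dimH_zero (hcount.mono ?_)))
        rintro x ⟨g1, g2, M, g3⟩
        refine ⟨g1, g2, E M, fun m hm hge' => ?_⟩
        obtain ⟨k, hk, rfl⟩ := hm
        have h5 : M ≤ k := hmono.le_iff_le.1 hge'
        have h6 := g3 k _ h5 rfl
        rw [key k _ rfl] at h6
        show (⌊x ^ E k⌋₊ + c).Prime ↔ E k ∈ E '' T
        rw [hmono.injective.mem_set_image]
        exact h6
    exact (eventually_countable_forall.2 h).mono fun x hx hx1 c K => hx c hx1 K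
  · have hsum : Summable fun m : Set.range E => 1 / ((m : ℕ) : ℝ) := by
      rw [← (Equiv.ofInjective _ hmono.injective).summable_iff]
      refine (summable_geometric_two).of_nonneg_of_le
        (fun k => div_nonneg zero_le_one (Nat.cast_nonneg _)) fun k => ?_
      show 1 / (((2 ^ (k + 2 ^ k) : ℕ) : ℝ)) ≤ (1 / 2) ^ k
      push_cast
      rw [one_div_pow]
      refine one_div_le_one_div_of_le (by positivity) ?_
      exact pow_le_pow_right₀ (by norm_num) (Nat.le_add_right _ _)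
    have h : ∀ᵐ x : ℝ, ∀ c : ℕ, 1 < x → ∃ M : ℕ, ∀ m ∈ Set.range E, M ≤ m →
        ¬ (⌊x ^ m⌋₊ + c).Prime := MeasureTheory.ae_all_iff.2 fun c => base_ae c hsum
    filter_upwards [h] with x hx hx1 c
    obtain ⟨M, hM⟩ := hx c hx1
    refine ⟨M, fun k n hk hn => ?_⟩
    rw [key k n hn]
    exact hM _ ⟨k, rfl⟩ (hk.trans (hge k))

end Pool.Agent.Results.MP_a70bdc_nt.PrescribedIndicesBases
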